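import Pool.Agent.Work.MP_e23409_co.Graph

set_option autoImplicit false

namespace Pool.Agent.Results.MP_e23409_co.CyclesFourChoosable

universe u w

/-- A vertex colouring `φ` of `G` is nonrepetitive: no path `v 0, v 1, …, v (2 m - 1)` of `G`
(`m ≥ 1`, distinct vertices, consecutive ones adjacent) satisfies `φ (v i) = φ (v (i + m))` for all
`i < m`. -/
def Nonrepetitive {V : Type w} {α : Type u} (G : SimpleGraph V) (φ : V → α) : Prop :=
  ∀ (m : ℕ) (v : Fin (2 * m) → V), 1 ≤ m → Function.Injective v →
    (∀ i j : Fin (2 * m), (i : ℕ) + 1 = j → G.Adj (v i) (v j)) →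
      ∃ i j : Fin (2 * m), (i : ℕ) + m = j ∧ φ (v i) ≠ φ (v j)

/-- `G` is nonrepetitively `k`-choosable with colours from `α`: whenever every vertex `v` has a
list `L v` (a set of colours, possibly infinite) with at least `k` elements, there is a
nonrepetitive colouring `φ` with `φ v ∈ L v` for all `v`. -/
def NonrepChoosable (α : Type u) {V : Type w} (G : SimpleGraph V) (k : ℕ) : Prop :=
  ∀ L : V → Set α, (∀ v, (k : ℕ∞) ≤ (L v).encard) →
    ∃ φ : V → α, (∀ v, φ v ∈ L v) ∧ Nonrepetitive G φ

/-- a path given by its vertices is a walk -/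
private theorem exists_walk {V : Type w} (G : SimpleGraph V) (v : ℕ → V) (k : ℕ)
    (h : ∀ i, i < k → G.Adj (v i) (v (i + 1))) :
    ∃ p : G.Walk (v 0) (v k), p.support = (List.range (k + 1)).map v := by
  induction k with
  | zero => exact ⟨SimpleGraph.Walk.nil, by simp⟩
  | succ k ih =>
    obtain ⟨p, hp⟩ := ih fun i hi => h i (by omega)
    refine ⟨p.concat (h k (by omega)), ?_⟩
    rw [SimpleGraph.Walk.support_concat, hp, List.range_succ (n := k + 1), List.map_append]
    simp

private theorem nonrep_of {V : Type w} {α : Type u} {G : SimpleGraph V} {c : V → ℕ} {φ : V → α}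
    {g : α → ℕ} (hg : ∀ v, g (φ v) = c v)
    (h : ∀ (u v : V) (p : G.Walk u v), p.IsPath → Even p.support.length →
      (p.support.map c).take (p.support.length / 2) ≠
        (p.support.map c).drop (p.support.length / 2)) : Nonrepetitive G φ := by
  intro m v hm hv hadj
  by_contra hcon
  push Not at hcon
  obtain ⟨m, rfl⟩ : ∃ k, m = k + 1 := ⟨m - 1, by omega⟩
  set w : ℕ → V := fun i => if hi : i < 2 * (m + 1) then v ⟨i, hi⟩ else v ⟨0, by omega⟩ with hw
  have hw1 : ∀ i (hi : i < 2 * (m + 1)), w i = v ⟨i, hi⟩ := fun i hi => by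
    simp only [hw, dif_pos hi]
  obtain ⟨p, hp⟩ := exists_walk G w (2 * m + 1) fun i hi => by
    rw [hw1 i (by omega), hw1 (i + 1) (by omega)]
    exact hadj _ _ rfl
  have hlen : p.support.length = 2 * (m + 1) := by
    rw [hp, List.length_map, List.length_range]
    omega
  have hpath : p.IsPath := by
    rw [SimpleGraph.Walk.isPath_def, hp]
    refine List.Nodup.map_on ?_ List.nodup_range
    intro i hi j hj hij
    rw [List.mem_range] at hi hj
    rw [hw1 i (by omega), hw1 j (by omega)] at hij
    exact congrArg Fin.val (hv hij)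
  refine h _ _ p hpath ⟨m + 1, by omega⟩ ?_
  rw [hlen, hp, List.map_map]
  have e : 2 * (m + 1) / 2 = m + 1 := by omega
  rw [e]
  apply List.ext_getElem
  · simp
    omega
  · intro i h1 h2
    have hi : i < m + 1 := by
      rw [List.length_take] at h1
      omega
    rw [List.getElem_take, List.getElem_drop, List.getElem_map, List.getElem_map,
      List.getElem_range, List.getElem_range]
    simp only [Function.comp_apply]
    rw [hw1 i (by omega), hw1 (m + 1 + i) (by omega), ← hg, ← hg]
    congr 1
    exact hcon ⟨i, by omega⟩ ⟨m + 1 + i, by omega⟩ (by simp; omega)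

/-- Every cycle is nonrepetitively `4`-choosable. -/
theorem result : ∀ (α : Type u) (n : ℕ), 3 ≤ n →
    NonrepChoosable α (SimpleGraph.cycleGraph n) 4 := by
  classical
  intro α n hn L hL
  have h1 : ∀ v : Fin n, ∃ s : Finset α, (s : Set α) ⊆ L v ∧ s.card = 4 := by
    intro v
    obtain ⟨t, ht, hc⟩ := Set.exists_subset_encard_eq (hL v)
    have hf : t.Finite := Set.finite_of_encard_eq_coe hc
    refine ⟨hf.toFinset, by simpa using ht, ?_⟩
    have h2 : (hf.toFinset.card : ℕ∞) = 4 := by
      rw [← Set.encard_coe_eq_coe_finsetCard, hf.coe_toFinset, hc]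
      rfl
    exact_mod_cast h2
  choose s hs hs4 using h1
  set F : Finset α := Finset.univ.biUnion s with hF
  obtain ⟨e, he⟩ := exists_injective_nat F
  set g : α → ℕ := fun x => if h : x ∈ F then e ⟨x, h⟩ else 0 with hg
  have hginj : Set.InjOn g F := by
    intro x hx y hy hxy
    simp only [hg] at hxy
    rw [dif_pos (Finset.mem_coe.1 hx), dif_pos (Finset.mem_coe.1 hy)] at hxy
    exact congrArg Subtype.val (he hxy)
  have hsF : ∀ v, s v ⊆ F := fun v => Finset.subset_biUnion_of_mem s (Finset.mem_univ v)
  obtain ⟨c, hc, hrep⟩ := Pool.Agent.Work.MP_e23409_co.cycle_choosable n hn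
    (fun v => (s v).image g) (fun v => by
      rw [Finset.card_image_of_injOn (hginj.mono (Finset.coe_subset.2 (hsF v))), hs4])
  have h2 : ∀ v, ∃ x ∈ s v, g x = c v := fun v => Finset.mem_image.1 (hc v)
  choose φ hφ hφc using h2
  exact ⟨φ, fun v => hs v (hφ v), nonrep_of hφc hrep⟩

end Pool.Agent.Results.MP_e23409_co.CyclesFourChoosable
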